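import Mathlib

/-! # Assembly of a path from blocks (helper521, job RN-HD1 of helper33) -/

set_option autoImplicit false

namespace Pool.Agent.Y521.RN

section

variable (m P iq : ℕ)

/-- the number of the block -/
def Qf (s : ℕ) : ℕ := min m ((s - iq) / P)

/-- the position in the block -/
def Rf (s : ℕ) : ℕ := s - Qf m P iq s * P

variable {m P iq}

theorem Qf_le (s : ℕ) : Qf m P iq s ≤ m := min_le_left _ _

theorem Qf_mul (_hP : 0 < P) (s : ℕ) : Qf m P iq s * P ≤ s - iq := by
  have h1 : Qf m P iq s ≤ (s - iq) / P := min_le_right _ _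
  exact (Nat.mul_le_mul_right P h1).trans (Nat.div_mul_le_self _ _)

theorem Rf_eq (hP : 0 < P) (s : ℕ) : s = Qf m P iq s * P + Rf m P iq s := by
  have := Qf_mul (m := m) (iq := iq) hP s
  unfold Rf
  omega

theorem Rf_ge (hP : 0 < P) (s : ℕ) : Qf m P iq s = 0 ∨ iq ≤ Rf m P iq s := by
  rcases Nat.eq_zero_or_pos (Qf m P iq s) with h | h
  · exact Or.inl h
  · right
    have h1 := Qf_mul (m := m) (iq := iq) hP s
    have h2 : 0 < Qf m P iq s * P := Nat.mul_pos h hP
    unfold Rf
    omega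

theorem Rf_lt (hP : 0 < P) (s : ℕ) (h : Qf m P iq s < m) : Rf m P iq s < iq + P := by
  have h1 : Qf m P iq s = (s - iq) / P := by
    unfold Qf at h ⊢
    omega
  have h2 := Nat.lt_div_mul_add (a := s - iq) hP
  rw [← h1] at h2
  have h3 := Rf_eq (m := m) (iq := iq) hP s
  omega

theorem Qf_succ (hP : 0 < P) (s : ℕ) :
    (Qf m P iq (s + 1) = Qf m P iq s) ∨
      (Qf m P iq s < m ∧ Qf m P iq (s + 1) = Qf m P iq s + 1 ∧
        s + 1 = (Qf m P iq s + 1) * P + iq) := by
  by_cases hs : s < iq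
  · left
    unfold Qf
    rw [show s - iq = 0 by omega, show s + 1 - iq = 0 by omega]
  · have e : s + 1 - iq = (s - iq) + 1 := by omega
    have h1 : (s - iq + 1) / P = (s - iq) / P + if P ∣ s - iq + 1 then 1 else 0 := Nat.succ_div
    by_cases hd : P ∣ s - iq + 1
    · rw [if_pos hd] at h1
      by_cases hm : (s - iq) / P < m
      · right
        have h2 : Qf m P iq s = (s - iq) / P := by
          unfold Qf
          omega
        refine ⟨by omega, ?_, ?_⟩
        · rw [h2]
          unfold Qf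
          rw [e, h1]
          omega
        · rw [h2, ← h1]
          have := Nat.div_mul_cancel hd
          omega
      · left
        unfold Qf
        rw [e, h1]
        omega
    · left
      rw [if_neg hd, add_zero] at h1
      unfold Qf
      rw [e, h1]

end

theorem asm {X : Type} (Adj : X → X → Prop) (d : X → X → ℕ) (Dd : X → ℕ) (V Z : ℕ → ℕ → X)
    (m K T ell ip iq : ℕ) (hm : 10 ≤ m) (hK : 1 ≤ K) (h1 : 1 ≤ ell) (h2 : ell ≤ K)
    (h4 : ip ≤ T) (h5 : T ≤ 9 * K) (h6 : iq + 3 * K ≤ ip)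
    (aV : ∀ q i, i < T → Adj (V q i) (V q (i + 1)))
    (aZ : ∀ q i, i < ell → Adj (Z q i) (Z q (i + 1)))
    (z0 : ∀ q, Z q 0 = V q ip) (z1 : ∀ q, Z q ell = V (q + 1) iq)
    (hVV0 : ∀ q i i', i ≤ i' → i' ≤ T → i' - i ≤ d (V q i) (V q i'))
    (hVV1 : ∀ q q' i i', i ≤ T → i' ≤ T → q < q' → q' ≤ m → K ≤ 50 * d (V q i) (V q' i'))
    (hVZ0 : ∀ q r r', r ≤ ip → r' ≤ ell → (ip - r) + r' ≤ 3 * d (V q r) (Z q r'))
    (hZV1 : ∀ q r r', r ≤ ell → iq ≤ r' → r' ≤ T →
      (r' - iq) + (ell - r) ≤ 3 * d (Z q r) (V (q + 1) r'))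
    (hVZ2 : ∀ q q' i i', i ≤ T → i' ≤ ell → q < q' → q' < m → K ≤ 50 * d (V q i) (Z q' i'))
    (hZV2 : ∀ q q' i i', i ≤ ell → i' ≤ T → q + 1 < q' → q' ≤ m → K ≤ 50 * d (Z q i) (V q' i'))
    (hZZ0 : ∀ q i i', i ≤ i' → i' ≤ ell → i' - i ≤ d (Z q i) (Z q i'))
    (hZZ1 : ∀ q q' i i', i ≤ ell → i' ≤ ell → q < q' → q' < m → K ≤ 50 * d (Z q i) (Z q' i'))
    (hDV : ∀ q i, i ≤ T → 1 ≤ q → q + 2 ≤ m → 3 * K ≤ Dd (V q i))
    (hDZ : ∀ q i, i ≤ ell → 1 ≤ q → q + 2 ≤ m → 3 * K ≤ Dd (Z q i)) :
    ∃ (σ : ℕ → X) (N : ℕ), N ≤ 20 * (m + 1) * K ∧ 2 * (m + 1) * K ≤ N ∧ σ 0 = V 0 0 ∧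
      σ N = V m T ∧ (∀ k, k < N → Adj (σ k) (σ (k + 1))) ∧
      (∀ k k', k ≤ k' → k' ≤ N → k' - k ≤ 1000 * (m + 1) * d (σ k) (σ k')) ∧
      ∀ k, 100 * K ≤ k → k + 100 * K ≤ N → 3 * K ≤ Dd (σ k) := by
  obtain ⟨P, hPe⟩ : ∃ P, P = (ip - iq) + ell := ⟨_, rfl⟩
  have hP : 0 < P := by omega
  have hP1 : iq + P = ip + ell := by omega
  have hP10 : P ≤ 10 * K := by omega
  have hP3 : 3 * K ≤ P := by omega
  obtain ⟨σ, hσ⟩ : ∃ σ : ℕ → X, ∀ s, σ s =
      if Qf m P iq s = m ∨ Rf m P iq s ≤ ip then V (Qf m P iq s) (Rf m P iq s)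
      else Z (Qf m P iq s) (Rf m P iq s - ip) := ⟨_, fun s => rfl⟩
  obtain ⟨N, hN⟩ : ∃ N, N = m * P + T := ⟨_, rfl⟩
  have hmP10 : m * P ≤ m * (10 * K) := Nat.mul_le_mul_left _ hP10
  have hmP3 : m * (3 * K) ≤ m * P := Nat.mul_le_mul_left _ hP3
  have hmK : 10 * K ≤ m * K := Nat.mul_le_mul_right _ hm
  have hNu : N ≤ 20 * (m + 1) * K := by nlinarith
  have hNl : 2 * (m + 1) * K ≤ N := by nlinarith
  -- classification
  have cl : ∀ s, s ≤ N → (∃ q r, s = q * P + r ∧ q ≤ m ∧ r ≤ T ∧ (q = 0 ∨ iq ≤ r) ∧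
      (q = m ∨ r ≤ ip) ∧ σ s = V q r) ∨
      (∃ q r, s = q * P + ip + r ∧ q < m ∧ 1 ≤ r ∧ r < ell ∧ σ s = Z q r) := by
    intro s hs
    have e1 := Rf_eq (m := m) (iq := iq) hP s
    have e2 := Rf_ge (m := m) (iq := iq) hP s
    have e3 := Qf_le (m := m) (P := P) (iq := iq) s
    have e4 := Rf_lt (m := m) (iq := iq) hP s
    have e5 := hσ s
    obtain ⟨q, hq⟩ : ∃ q, q = Qf m P iq s := ⟨_, rfl⟩
    obtain ⟨r, hr⟩ : ∃ r, r = Rf m P iq s := ⟨_, rfl⟩
    rw [← hq, ← hr] at e5
    rw [← hr, ← hq] at e1 e2 e4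
    rw [← hq] at e3
    by_cases hc : q = m ∨ r ≤ ip
    · rw [if_pos hc] at e5
      left
      refine ⟨q, r, e1, e3, ?_, e2, hc, e5⟩
      rcases hc with h | h
      · subst h
        omega
      · omega
    · rw [if_neg hc] at e5
      right
      have e6 := e4 (by omega)
      exact ⟨q, r - ip, by omega, by omega, by omega, by omega, e5⟩
  have big : ∀ s s' t : ℕ, s ≤ s' → s' ≤ N → K ≤ 50 * t → s' - s ≤ 1000 * (m + 1) * t := by
    intro s s' t _ hs' ht
    have : 20 * (m + 1) * K ≤ 20 * (m + 1) * (50 * t) := Nat.mul_le_mul_left _ ht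
    have e : 20 * (m + 1) * (50 * t) = 1000 * (m + 1) * t := by ring
    omega
  have small : ∀ a t : ℕ, a ≤ 3 * t → a ≤ 1000 * (m + 1) * t := by
    intro a t h
    have : 3 * t ≤ 1000 * (m + 1) * t := Nat.mul_le_mul_right _ (by omega)
    omega
  refine ⟨σ, N, hNu, hNl, ?_, ?_, ?_, ?_, ?_⟩
  · have e1 : Qf m P iq 0 = 0 := by
      unfold Qf
      simp
    have e2 : Rf m P iq 0 = 0 := by
      unfold Rf
      simp
    rw [hσ 0, e1, e2, if_pos (Or.inr (Nat.zero_le _))]
  · have e1 : Qf m P iq N = m := by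
      have h3 : m ≤ (N - iq) / P := by
        rw [Nat.le_div_iff_mul_le hP]
        omega
      unfold Qf
      omega
    have e2 : Rf m P iq N = T := by
      unfold Rf
      rw [e1]
      omega
    rw [hσ N, e1, e2, if_pos (Or.inl rfl)]
  · -- steps
    intro s hs
    have e1 := Rf_eq (m := m) (iq := iq) hP s
    have e1' := Rf_eq (m := m) (iq := iq) hP (s + 1)
    have e3 := Qf_le (m := m) (P := P) (iq := iq) s
    have e4 := Rf_lt (m := m) (iq := iq) hP s
    have e5 := hσ s
    have e5' := hσ (s + 1)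
    have e6 := Qf_succ (m := m) (iq := iq) hP s
    obtain ⟨q, hq⟩ : ∃ q, q = Qf m P iq s := ⟨_, rfl⟩
    obtain ⟨r, hr⟩ : ∃ r, r = Rf m P iq s := ⟨_, rfl⟩
    rw [← hq, ← hr] at e5
    rw [← hr, ← hq] at e1 e4
    rw [← hq] at e3 e6
    rcases e6 with h | ⟨h7, h8, h9⟩
    · rw [h] at e5' e1'
      have hr' : Rf m P iq (s + 1) = r + 1 := by omega
      rw [hr'] at e5' e1'
      by_cases hqm : q = m
      · rw [if_pos (Or.inl hqm)] at e5 e5'
        rw [e5, e5']
        refine aV q r ?_
        subst hqm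
        omega
      · have e7 := e4 (by omega)
        by_cases hc : r + 1 ≤ ip
        · rw [if_pos (Or.inr (by omega))] at e5
          rw [if_pos (Or.inr hc)] at e5'
          rw [e5, e5']
          exact aV q r (by omega)
        · rw [if_neg (by omega)] at e5'
          by_cases hc2 : r = ip
          · rw [if_pos (Or.inr (by omega))] at e5
            rw [e5, e5', hc2, ← z0 q, show ip + 1 - ip = 0 + 1 by omega]
            exact aZ q 0 (by omega)
          · rw [if_neg (by omega)] at e5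
            rw [e5, e5', show r + 1 - ip = (r - ip) + 1 by omega]
            exact aZ q (r - ip) (by omega)
    · rw [h8] at e5' e1'
      have hr' : Rf m P iq (s + 1) = iq := by omega
      rw [hr', if_pos (Or.inr (by omega))] at e5'
      have hrr : r + 1 = iq + P := by
        have : (q + 1) * P = q * P + P := by ring
        omega
      have e8 : σ s = Z q (ell - 1) := by
        by_cases hc2 : ell = 1
        · rw [if_pos (Or.inr (by omega))] at e5
          rw [e5, hc2, show r = ip by omega]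
          exact (z0 q).symm
        · rw [if_neg (by omega)] at e5
          rw [e5]
          congr 1
          omega
      rw [e8, e5', ← z1 q]
      have := aZ q (ell - 1) (by omega)
      rwa [show ell - 1 + 1 = ell by omega] at this
  · -- quasi-geodesic
    intro s s' hss hs'
    rcases cl s (by omega) with ⟨q, r, a1, a2, a3, a4, a5, a6⟩ | ⟨q, r, a1, a2, a3, a4, a5⟩
    · rcases cl s' hs' with ⟨q', r', b1, b2, b3, b4, b5, b6⟩ | ⟨q', r', b1, b2, b3, b4, b5⟩
      · rw [a6, b6]
        rcases lt_trichotomy q q' with h | h | h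
        · exact big s s' _ hss hs' (hVV1 q q' r r' a3 b3 h b2)
        · subst h
          have := hVV0 q r r' (by omega) b3
          exact small _ _ (by omega)
        · exfalso
          obtain ⟨t, rfl⟩ := Nat.exists_eq_add_of_lt h
          have : (q' + t + 1) * P = q' * P + t * P + P := by ring
          have h0 : 0 ≤ t * P := Nat.zero_le _
          omega
      · rw [a6, b5]
        rcases lt_trichotomy q q' with h | h | h
        · exact big s s' _ hss hs' (hVZ2 q q' r r' a3 (by omega) h b2)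
        · subst h
          have := hVZ0 q r r' (by omega) (by omega)
          exact small _ _ (by omega)
        · exfalso
          obtain ⟨t, rfl⟩ := Nat.exists_eq_add_of_lt h
          have : (q' + t + 1) * P = q' * P + t * P + P := by ring
          have h0 : 0 ≤ t * P := Nat.zero_le _
          omega
    · rcases cl s' hs' with ⟨q', r', b1, b2, b3, b4, b5, b6⟩ | ⟨q', r', b1, b2, b3, b4, b5⟩
      · rw [a5, b6]
        rcases lt_trichotomy (q + 1) q' with h | h | h
        · exact big s s' _ hss hs' (hZV2 q q' r r' (by omega) b3 h b2)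
        · subst h
          have := hZV1 q r r' (by omega) (by omega) b3
          have e : (q + 1) * P = q * P + P := by ring
          exact small _ _ (by omega)
        · exfalso
          obtain ⟨t, rfl⟩ := Nat.exists_eq_add_of_le (show q' ≤ q by omega)
          have : (q' + t) * P = q' * P + t * P := by ring
          have h0 : 0 ≤ t * P := Nat.zero_le _
          omega
      · rw [a5, b5]
        rcases lt_trichotomy q q' with h | h | h
        · exact big s s' _ hss hs' (hZZ1 q q' r r' (by omega) (by omega) h b2)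
        · subst h
          have := hZZ0 q r r' (by omega) (by omega)
          exact small _ _ (by omega)
        · exfalso
          obtain ⟨t, rfl⟩ := Nat.exists_eq_add_of_lt h
          have : (q' + t + 1) * P = q' * P + t * P + P := by ring
          have h0 : 0 ≤ t * P := Nat.zero_le _
          omega
  · -- depth
    intro s hs1 hs2
    have key : ∀ q r : ℕ, s = q * P + r → q ≤ m → r ≤ 10 * K → 1 ≤ q ∧ q + 2 ≤ m := by
      intro q r hsq hqm hr
      constructor
      · by_contra h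
        have : q = 0 := by omega
        subst this
        omega
      · by_contra h
        obtain ⟨t, ht⟩ := Nat.exists_eq_add_of_le hqm
        have ht1 : t ≤ 1 := by omega
        have : m * P = q * P + t * P := by rw [ht]; ring
        have h7 : t * P ≤ 1 * P := Nat.mul_le_mul_right _ ht1
        omega
    rcases cl s (by omega) with ⟨q, r, a1, a2, a3, a4, a5, a6⟩ | ⟨q, r, a1, a2, a3, a4, a5⟩
    · obtain ⟨k1, k2⟩ := key q r a1 a2 (by omega)
      rw [a6]
      exact hDV q r a3 k1 k2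
    · obtain ⟨k1, k2⟩ := key q (ip + r) (by omega) (by omega) (by omega)
      rw [a5]
      exact hDZ q r (by omega) k1 k2

end Pool.Agent.Y521.RN
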