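import Pool.Agent.Y33.RN.Stm
import Pool.Agent.Y33.RN.Wl
import Pool.Agent.Y521.RN.Asm

/-! # Construction of the detour (helper521, job RN-HD1 of helper33) -/

set_option autoImplicit false

namespace Pool.Agent.Y521.RN

open Pool.Agent.TH54.BU Pool.Agent.Y33.SM Pool.Agent.Y33.RN

section gen

variable {X : Type} [Group X] {T : Set X}

theorem wtri (hT : ∀ s ∈ T, s⁻¹ ∈ T) {a b c : X} (ha : a ∈ Subgroup.closure T)
    (hb : b ∈ Subgroup.closure T) (hc : c ∈ Subgroup.closure T) :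
    wl T (a⁻¹ * c) ≤ wl T (a⁻¹ * b) + wl T (b⁻¹ * c) := by
  have := wl_mul hT (Subgroup.mul_mem _ (Subgroup.inv_mem _ ha) hb)
    (Subgroup.mul_mem _ (Subgroup.inv_mem _ hb) hc)
  rwa [show a⁻¹ * b * (b⁻¹ * c) = a⁻¹ * c by group] at this

theorem wcomm (hT : ∀ s ∈ T, s⁻¹ ∈ T) {a b : X} (ha : a ∈ Subgroup.closure T)
    (hb : b ∈ Subgroup.closure T) : wl T (a⁻¹ * b) = wl T (b⁻¹ * a) := by
  have := wl_inv hT (Subgroup.mul_mem _ (Subgroup.inv_mem _ ha) hb)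
  rw [← this]
  congr 1
  group

theorem exists_geo (hT : ∀ s ∈ T, s⁻¹ ∈ T) {g : X} (hg : g ∈ Subgroup.closure T) (a : X) :
    ∃ γ : ℕ → X, γ 0 = a ∧ γ (wl T g) = a * g ∧ HGeo T γ (wl T g) := by
  obtain ⟨l, h1, h2, h3⟩ := exists_min hT hg
  have h0 : a * (l.take 0).prod = a := by simp
  have hl : a * (l.take (wl T g)).prod = a * g := by
    rw [← h3, List.take_length, h2]
  refine ⟨fun i => a * (l.take i).prod, h0, hl, ?_, ?_⟩
  · intro i hi
    have hi' : i < l.length := by omega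
    have e := List.prod_take_succ l i hi'
    show (a * (l.take i).prod)⁻¹ * (a * (l.take (i + 1)).prod) ∈ T
    rw [e]
    have : (a * (l.take i).prod)⁻¹ * (a * ((l.take i).prod * l[i])) = l[i] := by group
    rw [this]
    exact h1 _ (List.getElem_mem hi')
  · show wl T ((a * (l.take 0).prod)⁻¹ * (a * (l.take (wl T g)).prod)) = wl T g
    rw [h0, hl]
    congr 1
    group

end gen

/-- the distance of the images in the quotient -/
noncomputable def dq {G : Type} [Group G] (M : Subgroup G) [M.Normal] (S : Set G) (a b : G) : ℕ :=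
  wl (im M S) (((a : G) : G ⧸ M)⁻¹ * ((b : G) : G ⧸ M))

/-- the word distance -/
noncomputable def hd {G : Type} [Group G] (S : Set G) (a b : G) : ℕ := wl S (a⁻¹ * b)

/-- the data of the construction -/
structure Dat {G : Type} [Group G] (C K n : ℕ) (w : GH G) (S : Set G) (M : Subgroup G) [M.Normal]
    (w' : GH (G ⧸ M)) (u x0 : G) (V : ℕ → G) (T : ℕ) : Prop where
  big : 1000 * (C + 1) ≤ K
  hn : 10 ^ 6 ≤ n
  ql : QL w M w'
  inv : ∀ s ∈ S, s⁻¹ ∈ S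
  one : ∀ s ∈ S, w.len s ≤ 1
  hz : Hz w S C K u x0
  xn : x0 ^ n ∈ M
  inj : ∀ m ∈ M, m ≠ 1 → n * K ≤ 10 * w.len m
  ring : ∀ (g1 g2 : G) (j : ℤ), w.len g1 ≤ 50 * K → w.len g2 ≤ 50 * K → 2 * |j| ≤ n + 100 →
      w.len (g1 * x0 ^ j * g2) ≤ w'.len ((g1 * x0 ^ j * g2 : G) : G ⧸ M) ∨
        n * K ≤ 100 * w'.len ((g1 * x0 ^ j * g2 : G) : G ⧸ M)
  V0 : V 0 = u
  VT : V T = x0
  geo : HGeo S V T

section

variable {G : Type} [Group G] {C K n : ℕ} {w : GH G} {S : Set G} {M : Subgroup G} [M.Normal]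
  {w' : GH (G ⧸ M)} {u x0 : G} {V : ℕ → G} {T : ℕ}

theorem dq_mul (x a b : G) : dq M S (x * a) (x * b) = dq M S a b := by
  unfold dq
  rw [QuotientGroup.mk_mul, QuotientGroup.mk_mul]
  congr 1
  group

theorem hd_mul (x a b : G) : hd S (x * a) (x * b) = hd S a b := by
  unfold hd
  congr 1
  group

theorem hd_tri (hS : ∀ s ∈ S, s⁻¹ ∈ S) {a b c : G} (ha : a ∈ Subgroup.closure S)
    (hb : b ∈ Subgroup.closure S) (hc : c ∈ Subgroup.closure S) :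
    hd S a c ≤ hd S a b + hd S b c := wtri hS ha hb hc

theorem hd_comm (hS : ∀ s ∈ S, s⁻¹ ∈ S) {a b : G} (ha : a ∈ Subgroup.closure S)
    (hb : b ∈ Subgroup.closure S) : hd S a b = hd S b a := wcomm hS ha hb

theorem dq_tri (hS : ∀ s ∈ S, s⁻¹ ∈ S) {a b c : G} (ha : a ∈ Subgroup.closure S)
    (hb : b ∈ Subgroup.closure S) (hc : c ∈ Subgroup.closure S) :
    dq M S a c ≤ dq M S a b + dq M S b c :=
  wtri (im_inv hS) (mem_im ha) (mem_im hb) (mem_im hc)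

theorem dq_comm (hS : ∀ s ∈ S, s⁻¹ ∈ S) {a b : G} (ha : a ∈ Subgroup.closure S)
    (hb : b ∈ Subgroup.closure S) : dq M S a b = dq M S b a :=
  wcomm (im_inv hS) (mem_im ha) (mem_im hb)

theorem dq_le (hS : ∀ s ∈ S, s⁻¹ ∈ S) {a b : G} (ha : a ∈ Subgroup.closure S)
    (hb : b ∈ Subgroup.closure S) : dq M S a b ≤ hd S a b := by
  have := wl_im_le (M := M) hS (Subgroup.mul_mem _ (Subgroup.inv_mem _ ha) hb)
  rwa [QuotientGroup.mk_mul, QuotientGroup.mk_inv] at this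

namespace Dat

variable (D : Dat C K n w S M w' u x0 V T)

include D

theorem wd_le {a b : G} (ha : a ∈ Subgroup.closure S) (hb : b ∈ Subgroup.closure S) :
    w.d a b ≤ hd S a b :=
  len_le_wl w D.inv D.one (Subgroup.mul_mem _ (Subgroup.inv_mem _ ha) hb)

theorem mV {i : ℕ} (hi : i ≤ T) : V i ∈ Subgroup.closure S := by
  have h := (path_mem D.geo.1 0 i (by omega)).1
  rw [zero_add, D.V0] at h
  have := Subgroup.mul_mem _ D.hz.mu h
  rwa [mul_inv_cancel_left] at this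

theorem mxp (j : ℕ) : x0 ^ j ∈ Subgroup.closure S := Subgroup.pow_mem _ D.hz.mx _

theorem mxz (j : ℤ) : x0 ^ j ∈ Subgroup.closure S := Subgroup.zpow_mem _ D.hz.mx _

theorem mxV (j : ℕ) {i : ℕ} (hi : i ≤ T) : x0 ^ j * V i ∈ Subgroup.closure S :=
  Subgroup.mul_mem _ (D.mxp j) (D.mV hi)

theorem hV {i j : ℕ} (hij : i ≤ j) (hj : j ≤ T) : hd S (V i) (V j) = j - i :=
  HGeo.eq D.inv D.geo hij hj

theorem Teq : wl S (u⁻¹ * x0) = T := by
  have := D.geo.2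
  rwa [D.V0, D.VT] at this

theorem T1 : 5 * K ≤ T + C := by
  have h1 := D.hz.a3
  have h2 := len_le_wl w D.inv D.one
    (Subgroup.mul_mem _ (Subgroup.inv_mem _ D.hz.mu) D.hz.mx)
  rw [D.Teq] at h2
  omega

theorem T2 : T ≤ 8 * K + C := by
  have h1 := D.hz.a2
  have h2 := D.hz.a4
  rw [D.Teq] at h1
  omega

theorem wu : w.len u ≤ K := by
  have := len_le_wl w D.inv D.one D.hz.mu
  rwa [D.hz.hK] at this

theorem wV {i : ℕ} (hi : i ≤ T) : w.len (V i) ≤ w.len u + i := by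
  have h1 := w.d_tri 1 u (V i)
  have h2 := D.wd_le (D.mV (Nat.zero_le T)) (D.mV hi)
  rw [D.hV (Nat.zero_le i) hi, D.V0] at h2
  rw [w.d_one, w.d_one] at h1
  omega

theorem wx : w.len u + T ≤ w.len x0 + 2 * C := by
  have h1 := D.hz.a1
  have h2 := D.hz.a2
  rw [D.Teq] at h2
  omega

theorem L3 (m : ℕ) {i j : ℕ} (hi : i ≤ T) (hj : j ≤ T) :
    T + w.len u + j + w.len (x0 ^ m) ≤ w.d (V i) (x0 ^ (m + 1) * V j) + 6 * C + i := by
  have a1 := D.hz.sup 1 (m + 1)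
  have a2 := D.hz.sup m 1
  rw [pow_one, show 1 + (m + 1) = m + 2 by ring] at a1
  rw [pow_one] at a2
  have a3 := w.d_tri 1 (V i) (x0 ^ (m + 2))
  have a4 := w.d_tri (V i) (x0 ^ (m + 1) * V j) (x0 ^ (m + 2))
  have a5 : w.d (x0 ^ (m + 1) * V j) (x0 ^ (m + 2)) = w.d (V j) x0 := by
    rw [pow_succ x0 (m + 1), w.d_mul]
  have a6 := D.wd_le (D.mV hj) (D.mV le_rfl)
  rw [D.hV hj le_rfl, D.VT] at a6
  have a7 := D.wV hi
  have a8 := D.wx
  rw [w.d_one, w.d_one] at a3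
  omega

theorem L4 {k : ℕ} (hk : 2 ≤ k) {i j : ℕ} (hi : i ≤ T) (hj : j ≤ T) :
    5 * K ≤ w.d (V i) (x0 ^ k * V j) + 10 * C := by
  obtain ⟨m, rfl⟩ := Nat.exists_eq_add_of_le hk
  have h1 := D.L3 (m + 1) hi hj
  rw [show m + 1 + 1 = 2 + m by ring] at h1
  have h2 := D.hz.sup m 1
  rw [pow_one] at h2
  have h3 := D.wx
  have h4 := D.T1
  omega

theorem wVb {i : ℕ} (hi : i ≤ T) : w.len (V i) ≤ 10 * K := by
  have h1 := D.wV hi
  have h2 := D.wu
  have h3 := D.T2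
  have h4 := D.big
  omega

theorem L5 {a b : G} (ha : a ∈ Subgroup.closure S) (hb : b ∈ Subgroup.closure S)
    (wa : w.len a ≤ 50 * K) (wb : w.len b ≤ 50 * K) (j : ℤ) (hj : 2 * |j| ≤ n + 100) :
    w.d a (x0 ^ j * b) ≤ dq M S a (x0 ^ j * b) ∨ n * K ≤ 100 * dq M S a (x0 ^ j * b) := by
  have h1 := D.ring a⁻¹ b j (by rwa [w.len_inv]) wb hj
  have hmem : a⁻¹ * x0 ^ j * b ∈ Subgroup.closure S :=
    Subgroup.mul_mem _ (Subgroup.mul_mem _ (Subgroup.inv_mem _ ha) (D.mxz j)) hb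
  have h2 := len_le_wl w' (im_inv D.inv) (by
    rintro _ ⟨s, hs, rfl⟩
    exact (D.ql.le s).trans (D.one s hs)) (mem_im (M := M) hmem)
  have e1 : w.d a (x0 ^ j * b) = w.len (a⁻¹ * x0 ^ j * b) := by
    unfold GH.d
    rw [mul_assoc]
  have e2 : dq M S a (x0 ^ j * b) = wl (im M S) ((a⁻¹ * x0 ^ j * b : G) : G ⧸ M) := by
    unfold dq
    rw [mul_assoc a⁻¹, QuotientGroup.mk_mul M a⁻¹, QuotientGroup.mk_inv]
  rw [e1, e2]
  rcases h1 with h | h
  · left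
    omega
  · right
    omega

theorem nK {t : ℕ} (h : n * K ≤ 100 * t) : 4 * K ≤ t := by
  have h1 : 10 ^ 6 * K ≤ n * K := Nat.mul_le_mul_right _ D.hn
  omega

theorem mkn : ((x0 ^ n : G) : G ⧸ M) = 1 := (QuotientGroup.eq_one_iff _).2 D.xn

theorem L6 {j : ℕ} (h2 : 2 ≤ j) (hjn : j + 2 ≤ n) {i i' : ℕ} (hi : i ≤ T) (hi' : i' ≤ T) :
    4 * K ≤ dq M S (V i) (x0 ^ j * V i') := by
  have hb := D.big
  have w1 := D.wVb hi
  have w2 := D.wVb hi'
  by_cases hc : 2 * j ≤ n + 100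
  · have h3 := D.L5 (D.mV hi) (D.mV hi') (by omega) (by omega) (j : ℤ) (by
      rw [Nat.abs_cast]
      exact_mod_cast hc)
    rw [zpow_natCast] at h3
    rcases h3 with h | h
    · have := D.L4 h2 hi hi'
      omega
    · exact D.nK h
  · obtain ⟨k, hk⟩ : ∃ k, n = j + k := ⟨n - j, by omega⟩
    have h3 := D.L5 (D.mV hi) (D.mV hi') (by omega) (by omega) (-(k : ℤ)) (by
      rw [abs_neg, Nat.abs_cast]
      have : 2 * k ≤ n + 100 := by omega
      exact_mod_cast this)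
    have e1 : dq M S (V i) (x0 ^ (-(k : ℤ)) * V i') = dq M S (V i) (x0 ^ j * V i') := by
      unfold dq
      congr 2
      have e : x0 ^ j * V i' = x0 ^ n * (x0 ^ (-(k : ℤ)) * V i') := by
        rw [← mul_assoc, ← zpow_natCast x0 n, ← zpow_add, ← zpow_natCast x0 j]
        congr 2
        rw [hk]
        push_cast
        ring
      rw [e, QuotientGroup.mk_mul M (x0 ^ n), D.mkn, one_mul]
    have e2 : w.d (V i) (x0 ^ (-(k : ℤ)) * V i') = w.d (V i') (x0 ^ k * V i) := by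
      rw [← w.d_mul (x0 ^ k), w.d_comm]
      congr 1
      rw [← mul_assoc, zpow_neg, zpow_natCast, mul_inv_cancel, one_mul]
    rw [e1, e2] at h3
    rcases h3 with h | h
    · have := D.L4 (show 2 ≤ k by omega) hi' hi
      omega
    · exact D.nK h

theorem L6' {q q' : ℕ} (h2 : q + 2 ≤ q') (hjn : q' + 2 ≤ q + n) {i i' : ℕ} (hi : i ≤ T)
    (hi' : i' ≤ T) : 4 * K ≤ dq M S (x0 ^ q * V i) (x0 ^ q' * V i') := by
  obtain ⟨j, rfl⟩ := Nat.exists_eq_add_of_le (show q ≤ q' by omega)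
  rw [pow_add, mul_assoc, dq_mul]
  exact D.L6 (by omega) (by omega) hi hi'

theorem loc {a b : G} (ha : a ∈ Subgroup.closure S) (hb : b ∈ Subgroup.closure S)
    (h : w.d a b ≤ 40 * K) : hd S a b ≤ dq M S a b ∨ 10 * K < dq M S a b := by
  by_cases hc : 10 * K < dq M S a b
  · exact Or.inr hc
  left
  have hab : a⁻¹ * b ∈ Subgroup.closure S := Subgroup.mul_mem _ (Subgroup.inv_mem _ ha) hb
  obtain ⟨g, hg, h1, h2⟩ := wl_im_lift D.inv (mem_im (M := M) hab)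
  have e2 : dq M S a b = wl (im M S) ((a⁻¹ * b : G) : G ⧸ M) := by
    unfold dq
    rw [QuotientGroup.mk_mul M a⁻¹, QuotientGroup.mk_inv]
  have h3 : g⁻¹ * (a⁻¹ * b) ∈ M := QuotientGroup.eq.1 h1
  have h4 := len_le_wl w D.inv D.one hg
  have h5 := w.len_mul g⁻¹ (a⁻¹ * b)
  rw [w.len_inv] at h5
  have h6 : w.len (a⁻¹ * b) ≤ 40 * K := h
  have h7 : g⁻¹ * (a⁻¹ * b) = 1 := by
    by_contra hne
    have h8 := D.inj _ h3 hne
    have h9 : 10 ^ 6 * K ≤ n * K := Nat.mul_le_mul_right _ D.hn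
    have := D.big
    omega
  have h8 : g = a⁻¹ * b := inv_mul_eq_one.1 h7
  unfold hd
  rw [← h8, h2, ← e2]

theorem L8 {i j : ℕ} (hi : i ≤ T) (hj : j ≤ T) : K ≤ 2 * hd S (V i) (x0 * V j) + 6 * C := by
  have h1 := D.L3 0 hi hj
  rw [pow_zero, w.len_one, zero_add, pow_one] at h1
  have mj : x0 * V j ∈ Subgroup.closure S := Subgroup.mul_mem _ D.hz.mx (D.mV hj)
  have m0 : x0 * V 0 ∈ Subgroup.closure S :=
    Subgroup.mul_mem _ D.hz.mx (D.mV (Nat.zero_le T))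
  have h2 := D.wd_le (D.mV hi) mj
  have h3 : hd S (V T) (x0 * V 0) = K := by
    unfold hd
    rw [D.VT, D.V0, inv_mul_cancel_left, D.hz.hK]
  have h4 := hd_tri D.inv (D.mV (le_refl T)) (D.mV hi) m0
  have h5 := hd_tri D.inv (D.mV hi) mj m0
  have h6 : hd S (V T) (V i) = T - i := by
    rw [hd_comm D.inv (D.mV le_rfl) (D.mV hi), D.hV hi le_rfl]
  have h7 : hd S (x0 * V j) (x0 * V 0) = j := by
    rw [hd_mul, hd_comm D.inv (D.mV hj) (D.mV (Nat.zero_le T)), D.hV (Nat.zero_le j) hj]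
    rfl
  omega

theorem wdb {a b : G} (ha : w.len a ≤ 20 * K) (hb : w.len b ≤ 20 * K) : w.d a b ≤ 40 * K := by
  have := w.d_tri a 1 b
  rw [w.d_one, w.d_one'] at this
  omega

theorem wxV {j : ℕ} (hj : j ≤ T) : w.len (x0 * V j) ≤ 20 * K := by
  have h1 := w.len_mul x0 (V j)
  have h2 := D.wVb hj
  have h3 := D.wVb le_rfl
  rw [D.VT] at h3
  omega

theorem adj {i j : ℕ} (hi : i ≤ T) (hj : j ≤ T) : K ≤ 50 * dq M S (V i) (x0 * V j) := by
  have mj : x0 * V j ∈ Subgroup.closure S := Subgroup.mul_mem _ D.hz.mx (D.mV hj)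
  have h1 := D.loc (D.mV hi) mj (D.wdb (by have := D.wVb hi; omega) (D.wxV hj))
  have h2 := D.L8 hi hj
  have h3 := D.big
  rcases h1 with h | h
  · omega
  · omega

theorem VV1 {q q' i i' : ℕ} (hi : i ≤ T) (hi' : i' ≤ T) (hq : q < q') (hq' : q' + 1 ≤ n) :
    K ≤ 50 * dq M S (x0 ^ q * V i) (x0 ^ q' * V i') := by
  by_cases h1 : q' = q + 1
  · subst h1
    rw [pow_succ, mul_assoc, dq_mul]
    exact D.adj hi hi'
  by_cases h2 : q' + 2 ≤ q + n
  · have := D.L6' (show q + 2 ≤ q' by omega) h2 hi hi'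
    omega
  · have e0 : q = 0 := by omega
    have e1 : q' + 1 = n := by omega
    subst e0
    rw [pow_zero, one_mul]
    have e2 : dq M S (V i) (x0 ^ q' * V i') = dq M S (x0 * V i) (V i') := by
      rw [← dq_mul x0]
      unfold dq
      congr 2
      rw [← mul_assoc, ← pow_succ', e1, QuotientGroup.mk_mul M (x0 ^ n), D.mkn, one_mul]
    rw [e2, dq_comm D.inv (Subgroup.mul_mem _ D.hz.mx (D.mV hi)) (D.mV hi')]
    exact D.adj hi' hi

theorem T3 : T ≤ 9 * K := by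
  have h1 := D.T2
  have h2 := D.big
  omega

theorem VV0 {q i i' : ℕ} (hi : i ≤ i') (hi' : i' ≤ T) :
    i' - i ≤ dq M S (x0 ^ q * V i) (x0 ^ q * V i') := by
  rw [dq_mul]
  have m1 := D.mV (hi.trans hi')
  have m2 := D.mV hi'
  have h1 := D.wd_le m1 m2
  have h2 := D.hV hi hi'
  have h3 := D.T3
  have h4 := D.loc m1 m2 (by omega)
  rcases h4 with h | h <;> omega

end Dat

/-- the connection of the blocks -/
structure Dat2 {G : Type} [Group G] (S : Set G) (x0 : G) (V : ℕ → G) (T : ℕ) (ip iq ell : ℕ)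
    (Z : ℕ → G) : Prop where
  hip : ip ≤ T
  hiq : iq ≤ T
  hell : hd S (V ip) (x0 * V iq) = ell
  hmin : ∀ i j, i ≤ T → j ≤ T → ell ≤ hd S (V i) (x0 * V j)
  Z0 : Z 0 = V ip
  Z1 : Z ell = x0 * V iq
  gz : HGeo S Z ell

namespace Dat2

variable {ip iq ell : ℕ} {Z : ℕ → G} (E : Dat2 S x0 V T ip iq ell Z)
  (D : Dat C K n w S M w' u x0 V T)

include E D

theorem e1 : ell ≤ K := by
  have h3 : hd S (V T) (x0 * V 0) = K := by
    unfold hd
    rw [D.VT, D.V0, inv_mul_cancel_left, D.hz.hK]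
  have := E.hmin T 0 le_rfl (Nat.zero_le T)
  omega

theorem e2 : K ≤ 2 * ell + 6 * C := by
  have := D.L8 E.hip E.hiq
  rwa [E.hell] at this

theorem mx1 : x0 * V iq ∈ Subgroup.closure S := Subgroup.mul_mem _ D.hz.mx (D.mV E.hiq)

theorem e3 : T + iq ≤ ell + 6 * C + ip := by
  have h1 := D.L3 0 E.hip E.hiq
  rw [pow_zero, w.len_one, zero_add, pow_one] at h1
  have h2 := D.wd_le (D.mV E.hip) (E.mx1 D)
  rw [E.hell] at h2
  omega

theorem mZ {r : ℕ} (hr : r ≤ ell) : Z r ∈ Subgroup.closure S := by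
  have h := (path_mem E.gz.1 0 r (by omega)).1
  rw [zero_add, E.Z0] at h
  have := Subgroup.mul_mem _ (D.mV E.hip) h
  rwa [mul_inv_cancel_left] at this

theorem hZ {i j : ℕ} (hij : i ≤ j) (hj : j ≤ ell) : hd S (Z i) (Z j) = j - i :=
  HGeo.eq D.inv E.gz hij hj

theorem f0 {r : ℕ} (hr : r ≤ ell) : hd S (Z r) (V ip) = r := by
  rw [← E.Z0, hd_comm D.inv (E.mZ D hr) (E.mZ D (Nat.zero_le ell)), E.hZ D (Nat.zero_le r) hr]
  rfl

theorem f1 {r : ℕ} (hr : r ≤ ell) : hd S (Z r) (x0 * V iq) = ell - r := by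
  rw [← E.Z1, E.hZ D hr le_rfl]

theorem wZ {r : ℕ} (hr : r ≤ ell) : w.len (Z r) ≤ 20 * K := by
  have h1 := w.d_tri 1 (V ip) (Z r)
  rw [w.d_one, w.d_one] at h1
  have h2 := D.wd_le (E.mZ D hr) (D.mV E.hip)
  rw [E.f0 D hr, w.d_comm] at h2
  have h3 := D.wVb E.hip
  have h4 := E.e1 D
  omega

theorem g0 {q r : ℕ} (hr : r ≤ ell) : dq M S (x0 ^ q * Z r) (x0 ^ q * V ip) ≤ K := by
  rw [dq_mul]
  have h1 := dq_le (M := M) D.inv (E.mZ D hr) (D.mV E.hip)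
  rw [E.f0 D hr] at h1
  have := E.e1 D
  omega

theorem g1 {q r : ℕ} (hr : r ≤ ell) : dq M S (x0 ^ q * Z r) (x0 ^ (q + 1) * V iq) ≤ K := by
  rw [pow_succ, mul_assoc, dq_mul]
  have h1 := dq_le (M := M) D.inv (E.mZ D hr) (E.mx1 D)
  rw [E.f1 D hr] at h1
  have := E.e1 D
  omega

theorem mxZ (q : ℕ) {r : ℕ} (hr : r ≤ ell) : x0 ^ q * Z r ∈ Subgroup.closure S :=
  Subgroup.mul_mem _ (D.mxp q) (E.mZ D hr)

theorem VZ0 {q r r' : ℕ} (hr : r ≤ ip) (hr' : r' ≤ ell) :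
    (ip - r) + r' ≤ 3 * dq M S (x0 ^ q * V r) (x0 ^ q * Z r') := by
  rw [dq_mul]
  have hrT := hr.trans E.hip
  have h1 := E.hmin r iq hrT E.hiq
  have h2 := hd_tri D.inv (D.mV hrT) (E.mZ D hr') (E.mx1 D)
  rw [E.f1 D hr'] at h2
  have h3 := hd_tri D.inv (D.mV hrT) (E.mZ D hr') (D.mV E.hip)
  rw [E.f0 D hr', D.hV hr E.hip] at h3
  have h4 := D.loc (D.mV hrT) (E.mZ D hr')
    (D.wdb (by have := D.wVb hrT; omega) (E.wZ D hr'))
  have h5 := D.T3
  have h6 := E.e1 D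
  have h7 := E.hip
  rcases h4 with h | h <;> omega

theorem ZV1 {q r r' : ℕ} (hr : r ≤ ell) (hr1 : iq ≤ r') (hr' : r' ≤ T) :
    (r' - iq) + (ell - r) ≤ 3 * dq M S (x0 ^ q * Z r) (x0 ^ (q + 1) * V r') := by
  rw [pow_succ, mul_assoc, dq_mul]
  have mj : x0 * V r' ∈ Subgroup.closure S := Subgroup.mul_mem _ D.hz.mx (D.mV hr')
  have h1 := E.hmin ip r' E.hip hr'
  have h2 := hd_tri D.inv (D.mV E.hip) (E.mZ D hr) mj
  rw [hd_comm D.inv (D.mV E.hip) (E.mZ D hr), E.f0 D hr] at h2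
  have h3 := hd_tri D.inv (E.mx1 D) (E.mZ D hr) mj
  rw [hd_comm D.inv (E.mx1 D) (E.mZ D hr), E.f1 D hr, hd_mul, D.hV hr1 hr'] at h3
  have h4 := D.loc (E.mZ D hr) mj (D.wdb (E.wZ D hr) (D.wxV hr'))
  have h5 := D.T3
  have h6 := E.e1 D
  rcases h4 with h | h <;> omega

theorem VZ2 {q q' i i' : ℕ} (hi : i ≤ T) (hi' : i' ≤ ell) (hq : q < q') (hq' : q' + 2 ≤ n) :
    K ≤ 50 * dq M S (x0 ^ q * V i) (x0 ^ q' * Z i') := by
  have hn := D.hn
  by_cases h1 : q' = q + 1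
  · have h2 := D.L6' (show q + 2 ≤ q' + 1 by omega) (by omega) hi E.hiq
    have h3 := dq_tri (M := M) D.inv (D.mxV q hi) (E.mxZ D q' hi') (D.mxV (q' + 1) E.hiq)
    have h4 := E.g1 D (q := q') hi'
    omega
  · have h2 := D.L6' (show q + 2 ≤ q' by omega) (by omega) hi E.hip
    have h3 := dq_tri (M := M) D.inv (D.mxV q hi) (E.mxZ D q' hi') (D.mxV q' E.hip)
    have h4 := E.g0 D (q := q') hi'
    omega

theorem ZV2 {q q' i i' : ℕ} (hi : i ≤ ell) (hi' : i' ≤ T) (hq : q + 1 < q') (hq' : q' + 1 ≤ n) :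
    K ≤ 50 * dq M S (x0 ^ q * Z i) (x0 ^ q' * V i') := by
  have hn := D.hn
  by_cases h1 : q' = q + 2
  · have h2 := D.L6' (show q + 2 ≤ q' by omega) (by omega) E.hip hi'
    have h3 := dq_tri (M := M) D.inv (D.mxV q E.hip) (E.mxZ D q hi) (D.mxV q' hi')
    have h4 := E.g0 D (q := q) hi
    rw [dq_comm D.inv (E.mxZ D q hi) (D.mxV q E.hip)] at h4
    omega
  · have h2 := D.L6' (show q + 1 + 2 ≤ q' by omega) (by omega) E.hiq hi'
    have h3 := dq_tri (M := M) D.inv (D.mxV (q + 1) E.hiq) (E.mxZ D q hi) (D.mxV q' hi')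
    have h4 := E.g1 D (q := q) hi
    rw [dq_comm D.inv (E.mxZ D q hi) (D.mxV (q + 1) E.hiq)] at h4
    omega

theorem ZZ0 {q i i' : ℕ} (hi : i ≤ i') (hi' : i' ≤ ell) :
    i' - i ≤ dq M S (x0 ^ q * Z i) (x0 ^ q * Z i') := by
  rw [dq_mul]
  have m1 := E.mZ D (hi.trans hi')
  have m2 := E.mZ D hi'
  have h1 := D.wd_le m1 m2
  have h2 := E.hZ D hi hi'
  have h3 := E.e1 D
  have h4 := D.loc m1 m2 (by omega)
  rcases h4 with h | h <;> omega

theorem ZZ1 {q q' i i' : ℕ} (hi : i ≤ ell) (hi' : i' ≤ ell) (hq : q < q') (hq' : q' + 2 ≤ n) :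
    K ≤ 50 * dq M S (x0 ^ q * Z i) (x0 ^ q' * Z i') := by
  have hn := D.hn
  have g := E.g0 D (q := q) hi
  rw [dq_comm D.inv (E.mxZ D q hi) (D.mxV q E.hip)] at g
  by_cases h1 : q' = q + 1
  · have h2 := D.L6' (show q + 2 ≤ q' + 1 by omega) (by omega) E.hip E.hiq
    have h3 := dq_tri (M := M) D.inv (D.mxV q E.hip) (E.mxZ D q' hi') (D.mxV (q' + 1) E.hiq)
    have h4 := E.g1 D (q := q') hi'
    have h5 := dq_tri (M := M) D.inv (D.mxV q E.hip) (E.mxZ D q hi) (E.mxZ D q' hi')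
    omega
  · have h2 := D.L6' (show q + 2 ≤ q' by omega) (by omega) E.hip E.hip
    have h3 := dq_tri (M := M) D.inv (D.mxV q E.hip) (E.mxZ D q' hi') (D.mxV q' E.hip)
    have h4 := E.g0 D (q := q') hi'
    have h5 := dq_tri (M := M) D.inv (D.mxV q E.hip) (E.mxZ D q hi) (E.mxZ D q' hi')
    omega

end Dat2

theorem dep {g : G} : wl (im M S) ((g : G) : G ⧸ M) = dq M S x0 (x0 * g) := by
  unfold dq
  rw [QuotientGroup.mk_mul, inv_mul_cancel_left]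

theorem depV (D : Dat C K n w S M w' u x0 V T) {q i : ℕ} (hi : i ≤ T) (h1 : 1 ≤ q)
    (h2 : q + 3 ≤ n) : 4 * K ≤ dq M S x0 (x0 * (x0 ^ q * V i)) := by
  have h3 := D.L6' (q := 0) (q' := q + 1) (by omega) (by omega) le_rfl hi
  rw [pow_zero, one_mul, D.VT] at h3
  rwa [← mul_assoc, ← pow_succ']

/-- RN-HD1 -/
theorem t : S_HD1 := by
  intro C
  refine ⟨1000 * (C + 1), ?_⟩
  intro K n G _ w S M _ w' u x0 hK hn ql hS hz xn inj ring
  have hSi : ∀ s ∈ S, s⁻¹ ∈ S := fun s hs => (hS s hs).1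
  have mux : u⁻¹ * x0 ∈ Subgroup.closure S := Subgroup.mul_mem _ (Subgroup.inv_mem _ hz.mu) hz.mx
  obtain ⟨V, v0, v1, v2⟩ := exists_geo hSi mux u
  rw [mul_inv_cancel_left] at v1
  obtain ⟨T, hT⟩ : ∃ T, T = wl S (u⁻¹ * x0) := ⟨_, rfl⟩
  rw [← hT] at v1 v2
  have D : Dat C K n w S M w' u x0 V T :=
    ⟨hK, hn, ql, hSi, fun s hs => (hS s hs).2, hz, xn, inj, ring, v0, v1, v2⟩
  obtain ⟨p, hp, hp2⟩ := Finset.exists_min_image (Finset.range (T + 1) ×ˢ Finset.range (T + 1))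
    (fun p : ℕ × ℕ => hd S (V p.1) (x0 * V p.2)) ⟨(0, 0), by simp⟩
  obtain ⟨ip, iq⟩ := p
  rw [Finset.mem_product, Finset.mem_range, Finset.mem_range] at hp
  have hip : ip ≤ T := by
    have := hp.1
    simp only at this
    omega
  have hiq : iq ≤ T := by
    have := hp.2
    simp only at this
    omega
  have mz : (V ip)⁻¹ * (x0 * V iq) ∈ Subgroup.closure S :=
    Subgroup.mul_mem _ (Subgroup.inv_mem _ (D.mV hip)) (Subgroup.mul_mem _ hz.mx (D.mV hiq))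
  obtain ⟨Z, z0, z1, z2⟩ := exists_geo hSi mz (V ip)
  rw [mul_inv_cancel_left] at z1
  obtain ⟨ell, hell⟩ : ∃ ell, ell = hd S (V ip) (x0 * V iq) := ⟨_, rfl⟩
  have hell' : wl S ((V ip)⁻¹ * (x0 * V iq)) = ell := hell.symm
  rw [hell'] at z1 z2
  have E : Dat2 S x0 V T ip iq ell Z := by
    refine ⟨hip, hiq, hell.symm, ?_, z0, z1, z2⟩
    intro i j hi hj
    rw [hell]
    exact hp2 (i, j) (by
      rw [Finset.mem_product, Finset.mem_range, Finset.mem_range]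
      exact ⟨by simp only; omega, by simp only; omega⟩)
  obtain ⟨m, rfl⟩ : ∃ m, n = m + 1 := ⟨n - 1, by omega⟩
  have b1 := E.e1 D
  have b2 := E.e2 D
  have b3 := E.e3 D
  have b4 := D.T1
  have b5 := D.T3
  obtain ⟨σ, N, r1, r2, r3, r4, r5, r6, r7⟩ := asm
    (X := G ⧸ M) (fun a b => a⁻¹ * b ∈ im M S) (fun a b => wl (im M S) (a⁻¹ * b))
    (fun g => wl (im M S) g) (fun q i => ((x0 ^ q * V i : G) : G ⧸ M))
    (fun q i => ((x0 ^ q * Z i : G) : G ⧸ M)) m K T ell ip iq (by omega) (by omega) (by omega)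
    b1 hip b5 (by omega)
    (fun q i hi => ⟨(V i)⁻¹ * V (i + 1), v2.1 i hi, by
      show (((V i)⁻¹ * V (i + 1) : G) : G ⧸ M) =
        ((x0 ^ q * V i : G) : G ⧸ M)⁻¹ * ((x0 ^ q * V (i + 1) : G) : G ⧸ M)
      rw [← QuotientGroup.mk_inv, ← QuotientGroup.mk_mul]
      congr 1
      group⟩)
    (fun q i hi => ⟨(Z i)⁻¹ * Z (i + 1), z2.1 i hi, by
      show (((Z i)⁻¹ * Z (i + 1) : G) : G ⧸ M) =
        ((x0 ^ q * Z i : G) : G ⧸ M)⁻¹ * ((x0 ^ q * Z (i + 1) : G) : G ⧸ M)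
      rw [← QuotientGroup.mk_inv, ← QuotientGroup.mk_mul]
      congr 1
      group⟩)
    (fun q => by
      show ((x0 ^ q * Z 0 : G) : G ⧸ M) = ((x0 ^ q * V ip : G) : G ⧸ M)
      rw [z0])
    (fun q => by
      show ((x0 ^ q * Z ell : G) : G ⧸ M) = ((x0 ^ (q + 1) * V iq : G) : G ⧸ M)
      rw [z1, pow_succ, mul_assoc])
    (fun q i i' hi hi' => D.VV0 hi hi')
    (fun q q' i i' hi hi' hq hq' => D.VV1 hi hi' hq (by omega))
    (fun q r r' hr hr' => E.VZ0 D hr hr')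
    (fun q r r' hr h1 h2 => E.ZV1 D hr h1 h2)
    (fun q q' i i' hi hi' hq hq' => E.VZ2 D hi hi' hq (by omega))
    (fun q q' i i' hi hi' hq hq' => E.ZV2 D hi hi' hq (by omega))
    (fun q i i' hi hi' => E.ZZ0 D hi hi')
    (fun q q' i i' hi hi' hq hq' => E.ZZ1 D hi hi' hq (by omega))
    (fun q i hi h1 h2 => by
      have h3 := depV D hi h1 (by omega)
      show 3 * K ≤ wl (im M S) ((x0 ^ q * V i : G) : G ⧸ M)
      rw [dep (x0 := x0)]
      omega)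
    (fun q i hi h1 h2 => by
      have h3 := depV D E.hip h1 (show q + 3 ≤ m + 1 by omega)
      show 3 * K ≤ wl (im M S) ((x0 ^ q * Z i : G) : G ⧸ M)
      rw [dep (x0 := x0)]
      have h4 := dq_tri (M := M) D.inv hz.mx (Subgroup.mul_mem _ hz.mx (E.mxZ D q hi))
        (Subgroup.mul_mem _ hz.mx (D.mxV q E.hip))
      rw [dq_mul x0 (x0 ^ q * Z i)] at h4
      have h5 := E.g0 D (q := q) hi
      omega)
  refine ⟨σ, N, r1, r2, ?_, ?_, r5, r6, r7⟩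
  · rw [r3]
    show ((x0 ^ 0 * V 0 : G) : G ⧸ M) = (u : G ⧸ M)
    rw [pow_zero, one_mul, v0]
  · rw [r4]
    show ((x0 ^ m * V T : G) : G ⧸ M) = 1
    rw [v1, ← pow_succ]
    exact D.mkn

end

end Pool.Agent.Y521.RN
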